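import Pool.Agent.N783.CF.Stm
import Pool.Agent.N99.PF.Main

set_option autoImplicit false
set_option linter.all false

/-!
# CF/FEW: few polynomials have a small discriminant at some infinite place (helper195)
-/

open Polynomial NumberField
open scoped Classical

namespace Pool.Agent.N195.CF

open Pool.Agent.N783.PF
open Pool.Agent.N783.CF
open Pool.Agent.N352.PJ (dd)

variable {F : Type} [Field F] [NumberField F]

/-- the polynomial without the constant coefficient -/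
noncomputable def base (m : ℕ) (t : Fin m → 𝓞 F) : (𝓞 F)[X] :=
  X ^ (m + 2) + ∑ i : Fin m, C (t i) * X ^ ((i : ℕ) + 1)

lemma base_low (m : ℕ) (t : Fin m → 𝓞 F) :
    (∑ i : Fin m, C (t i) * X ^ ((i : ℕ) + 1) : (𝓞 F)[X]).degree < ((m + 2 : ℕ) : WithBot ℕ) := by
  refine lt_of_le_of_lt (degree_sum_le _ _) ?_
  rw [Finset.sup_lt_iff (WithBot.bot_lt_coe _)]
  intro i _
  refine lt_of_le_of_lt (degree_C_mul_X_pow_le _ _) ?_
  have := i.2
  exact_mod_cast (by omega : (i : ℕ) + 1 < m + 2)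

lemma base_monic (m : ℕ) (t : Fin m → 𝓞 F) : (base m t).Monic :=
  monic_X_pow_add (base_low m t)

lemma base_deg (m : ℕ) (t : Fin m → 𝓞 F) : (base m t).natDegree = m + 2 := by
  unfold base
  rw [natDegree_add_eq_left_of_degree_lt, natDegree_X_pow]
  rw [degree_X_pow]
  exact base_low m t

lemma split {g B m : ℕ} (hm : 2 * g = m + 1) {f : (𝓞 F)[X]} (hf : Ht g B f) :
    f = base m (fun i => f.coeff ((i : ℕ) + 1)) + C (f.coeff 0) := by
  have h1 := f.as_sum_range_C_mul_X_pow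
  rw [hf.deg, hm, Finset.sum_range_succ, Finset.sum_range_succ, Finset.sum_range_succ'] at h1
  have e1 : f.coeff (m + 1) = 0 := by rw [← hm]; exact hf.tr
  have e2 : f.coeff (m + 1 + 1) = 1 := by
    rw [← hm, ← hf.deg]
    exact hf.mon
  rw [e1, e2, C_0, zero_mul, C_1, one_mul, pow_zero, mul_one, add_zero] at h1
  rw [base, ← Finset.sum_range (fun i => C (f.coeff (i + 1)) * X ^ (i + 1))]
  refine h1.trans ?_
  ring

/-- the map to the constant coefficient and the others -/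
noncomputable def psi (m : ℕ) (f : (𝓞 F)[X]) : Σ _ : (Fin m → 𝓞 F), 𝓞 F :=
  ⟨fun i => f.coeff ((i : ℕ) + 1), f.coeff 0⟩

lemma psi_inj {g B m : ℕ} (hm : 2 * g = m + 1) : Set.InjOn (psi m) {f : (𝓞 F)[X] | Ht g B f} := by
  intro f hf f' hf' h
  rw [split hm hf, split hm hf']
  unfold psi at h
  rw [Sigma.mk.injEq, heq_eq_eq] at h
  rw [h.1, h.2]

lemma key {g B m : ℕ} (hm : 2 * g = m + 1) {δ : ℝ} (hδ : 0 < δ) (hB : 1 ≤ B)
    (c : (Fin m → 𝓞 F) → (F →+* ℂ) → Fin (2 * g) → ℂ)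
    (hc : ∀ t σ, ∀ a : ℂ, ∏ j, ‖a - c t σ j‖ ≤
      ‖((base m t).map (σ.comp (algebraMap (𝓞 F) F)) + C a).resultant
        (derivative ((base m t).map (σ.comp (algebraMap (𝓞 F) F)) + C a)) (2 * g + 1) (2 * g)‖)
    {f : (𝓞 F)[X]} (hf : Ht g B f) (hb : ¬ Big g B (δ ^ (2 * g)) f) :
    ∃ (σ : F →+* ℂ) (j : Fin (2 * g)), Bd ((f.coeff 0 : 𝓞 F) : F) ((B : ℝ) ^ (2 * g + 1)) ∧
      ‖σ ((f.coeff 0 : 𝓞 F) : F) - c (fun i => f.coeff ((i : ℕ) + 1)) σ j‖ <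
        δ * (B : ℝ) ^ (2 * g + 1) := by
  unfold Big at hb
  push Not at hb
  obtain ⟨σ, hσ⟩ := hb
  have h0 : Bd ((f.coeff 0 : 𝓞 F) : F) ((B : ℝ) ^ (2 * g + 1)) := by
    have := hf.ht 0 (Nat.zero_le _)
    rwa [Nat.sub_zero] at this
  have h1 := hc (fun i => f.coeff ((i : ℕ) + 1)) σ (σ ((f.coeff 0 : 𝓞 F) : F))
  have e1 : (base m (fun i => f.coeff ((i : ℕ) + 1))).map (σ.comp (algebraMap (𝓞 F) F)) +
      C (σ ((f.coeff 0 : 𝓞 F) : F)) = f.map (σ.comp (algebraMap (𝓞 F) F)) := by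
    conv_rhs => rw [split hm hf]
    rw [Polynomial.map_add, map_C]
    rfl
  rw [e1, derivative_map, resultant_map_map] at h1
  have e2 : (σ.comp (algebraMap (𝓞 F) F)) (f.resultant (derivative f) (2 * g + 1) (2 * g)) =
      σ ((dsc g f : 𝓞 F) : F) := rfl
  rw [e2] at h1
  have h2 : ∏ j, ‖σ ((f.coeff 0 : 𝓞 F) : F) - c (fun i => f.coeff ((i : ℕ) + 1)) σ j‖ <
      (δ * (B : ℝ) ^ (2 * g + 1)) ^ (2 * g) := by
    refine lt_of_le_of_lt h1 (lt_of_lt_of_eq hσ ?_)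
    rw [mul_pow, ← pow_mul, mul_comm (2 * g + 1)]
  by_contra hcon
  push Not at hcon
  have h3 : (δ * (B : ℝ) ^ (2 * g + 1)) ^ (2 * g) ≤
      ∏ j, ‖σ ((f.coeff 0 : 𝓞 F) : F) - c (fun i => f.coeff ((i : ℕ) + 1)) σ j‖ := by
    calc (δ * (B : ℝ) ^ (2 * g + 1)) ^ (2 * g) =
          ∏ _j : Fin (2 * g), (δ * (B : ℝ) ^ (2 * g + 1)) := by
          rw [Finset.prod_const, Finset.card_univ, Fintype.card_fin]
      _ ≤ _ := by
          apply Finset.prod_le_prod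
          · intro j _
            positivity
          · intro j _
            exact hcon σ j h0
  linarith

lemma sum_dd (g m : ℕ) (hm : 2 * g = m + 1) :
    (2 * g + 1) + ∑ j : Fin m, (2 * g + 1 - ((j : ℕ) + 1)) = dd g := by
  rw [← Pool.Agent.N99.PF.sum_ddM g]
  rw [← Finset.sum_range (fun j => 2 * g + 1 - (j + 1)), ← Finset.sum_range (fun j => 2 * g + 1 - j)]
  have : Finset.range (2 * g) = Finset.range (m + 1) := by rw [hm]
  rw [this, Finset.sum_range_succ', Nat.sub_zero, add_comm]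

theorem t_FEW : S_PTS → S_LPL → S_RES → S_FEW := by
  intro h0 h1 h2 g F _ _ hg ε hε
  obtain ⟨-, C₀, hC, -, hpt⟩ := h0 F
  obtain ⟨m, hm⟩ : ∃ m, 2 * g = m + 1 := ⟨2 * g - 1, by omega⟩
  obtain ⟨d, hd⟩ : ∃ d, d = Module.finrank ℚ F := ⟨_, rfl⟩
  have hd0 : 0 < d := by rw [hd]; exact Module.finrank_pos
  have hdr : (0 : ℝ) < d := by exact_mod_cast hd0
  have hgr : (0 : ℝ) < g := by exact_mod_cast hg
  obtain ⟨ε₁, hε₁⟩ : ∃ ε₁ : ℝ, ε₁ = ε / (d * (2 * g) * (2 * C₀) ^ m) := ⟨_, rfl⟩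
  have hε₁0 : 0 < ε₁ := by rw [hε₁]; positivity
  obtain ⟨δ₁, hδ₁, R₀, hL⟩ := h1 F ε₁ hε₁0
  rw [← hd] at hL
  choose c hc using fun (t : Fin m → 𝓞 F) (σ : F →+* ℂ) =>
    h2 g ((base m t).map (σ.comp (algebraMap (𝓞 F) F))) hg ((base_monic m t).map _)
      (by rw [(base_monic m t).natDegree_map, base_deg]; omega)
  refine ⟨δ₁ ^ (2 * g), by positivity, max 1 ⌈R₀⌉₊, fun B hB => ?_⟩
  have hB1 : 1 ≤ B := le_trans (le_max_left _ _) hB
  have hB1r : (1 : ℝ) ≤ B := by exact_mod_cast hB1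
  have hR0 : R₀ ≤ (B : ℝ) ^ (2 * g + 1) := by
    calc R₀ ≤ ⌈R₀⌉₊ := Nat.le_ceil _
      _ ≤ B := by exact_mod_cast le_trans (le_max_right _ _) hB
      _ ≤ (B : ℝ) ^ (2 * g + 1) := le_self_pow₀ hB1r (by omega)
  have hset : ∀ R : ℝ, {a : 𝓞 F | a - 0 ∈ (⊤ : Ideal (𝓞 F)) ∧ Bd (a : F) R} =
      {a : 𝓞 F | Bd (a : F) R} := by
    intro R
    ext a
    simp
  have hb : ∀ R : ℝ, 1 ≤ R → {a : 𝓞 F | Bd (a : F) R}.Finite ∧
      ({a : 𝓞 F | Bd (a : F) R}.ncard : ℝ) ≤ 2 * C₀ * R ^ d := by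
    intro R hR
    have h1 := hpt ⊤ 0 R top_ne_bot (by linarith)
    rw [hset R] at h1
    refine ⟨h1.1, h1.2.trans ?_⟩
    rw [Ideal.absNorm_top, Nat.cast_one, div_one, ← hd]
    have h2 : (1 : ℝ) ≤ R ^ d := one_le_pow₀ hR
    nlinarith
  have hfinH : {f : (𝓞 F)[X] | Ht g B f}.Finite := (Pool.Agent.N99.PF.ht_card hC hpt g B hB1).1
  have hfin : {f : (𝓞 F)[X] | Ht g B f ∧ ¬ Big g B (δ₁ ^ (2 * g)) f}.Finite :=
    hfinH.subset fun f hf => hf.1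
  refine ⟨hfin, ?_⟩
  have hA := fun (t : Fin m → 𝓞 F) (p : (F →+* ℂ) × Fin (2 * g)) => hL _ hR0 p.1 (c t p.1 p.2)
  have hpw : ∀ j : Fin m, (1 : ℝ) ≤ (B : ℝ) ^ (2 * g + 1 - ((j : ℕ) + 1)) := fun j =>
    one_le_pow₀ hB1r
  obtain ⟨T, hT⟩ : ∃ T : Finset (Fin m → 𝓞 F), T = Fintype.piFinset fun j : Fin m =>
    (hb _ (hpw j)).1.toFinset := ⟨_, rfl⟩
  obtain ⟨W, hW⟩ : ∃ W : (Fin m → 𝓞 F) → Finset (𝓞 F), W = fun t =>
    (Finset.univ : Finset ((F →+* ℂ) × Fin (2 * g))).biUnion fun p => (hA t p).1.toFinset :=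
    ⟨_, rfl⟩
  have hmaps : ∀ f ∈ {f : (𝓞 F)[X] | Ht g B f ∧ ¬ Big g B (δ₁ ^ (2 * g)) f},
      psi m f ∈ ((T.sigma W : Finset (Σ _ : (Fin m → 𝓞 F), 𝓞 F)) :
        Set (Σ _ : (Fin m → 𝓞 F), 𝓞 F)) := by
    rintro f ⟨hf, hbig⟩
    rw [Finset.mem_coe, Finset.mem_sigma]
    constructor
    · rw [hT, Fintype.mem_piFinset]
      intro j
      rw [Set.Finite.mem_toFinset]
      exact hf.ht _ (by have := j.2; omega)
    · obtain ⟨σ, j, hj1, hj2⟩ := key hm hδ₁ hB1 c hc hf hbig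
      rw [hW, Finset.mem_biUnion]
      refine ⟨(σ, j), Finset.mem_univ _, ?_⟩
      rw [Set.Finite.mem_toFinset]
      exact ⟨hj1, hj2⟩
  have hcard := Set.ncard_le_ncard_of_injOn (psi m) hmaps
    ((psi_inj hm).mono fun f hf => hf.1) (Finset.finite_toSet _)
  rw [Set.ncard_coe_finset, Finset.card_sigma] at hcard
  -- the fibres
  have hWc : ∀ t, ((W t).card : ℝ) ≤ d * (2 * g) * (ε₁ * ((B : ℝ) ^ (2 * g + 1)) ^ d) := by
    intro t
    have e1 : (W t).card ≤ ∑ p : (F →+* ℂ) × Fin (2 * g), ((hA t p).1.toFinset).card := by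
      rw [hW]
      exact Finset.card_biUnion_le
    have e2 : ((W t).card : ℝ) ≤
        ∑ p : (F →+* ℂ) × Fin (2 * g), (((hA t p).1.toFinset).card : ℝ) := by
      exact_mod_cast e1
    refine e2.trans ?_
    have e3 : ∀ p ∈ (Finset.univ : Finset ((F →+* ℂ) × Fin (2 * g))),
        (((hA t p).1.toFinset).card : ℝ) ≤ ε₁ * ((B : ℝ) ^ (2 * g + 1)) ^ d := by
      intro p _
      have e4 := (hA t p).2
      rw [Set.ncard_eq_toFinset_card _ (hA t p).1] at e4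
      exact e4
    refine (Finset.sum_le_sum e3).trans ?_
    rw [Finset.sum_const, Finset.card_univ, Fintype.card_prod, Fintype.card_fin, nsmul_eq_mul,
      NumberField.Embeddings.card, ← hd]
    push_cast
    exact le_refl _
  have hTc : (T.card : ℝ) ≤
      (2 * C₀) ^ m * ((B : ℝ) ^ d) ^ (∑ j : Fin m, (2 * g + 1 - ((j : ℕ) + 1))) := by
    rw [hT, Fintype.card_piFinset, Nat.cast_prod]
    calc ∏ j : Fin m, ((((hb _ (hpw j)).1.toFinset).card : ℕ) : ℝ)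
        ≤ ∏ j : Fin m, (2 * C₀ * ((B : ℝ) ^ d) ^ (2 * g + 1 - ((j : ℕ) + 1))) := by
          refine Finset.prod_le_prod (fun j _ => Nat.cast_nonneg _) fun j _ => ?_
          have h3 := (hb _ (hpw j)).2
          rw [Set.ncard_eq_toFinset_card _ (hb _ (hpw j)).1] at h3
          refine h3.trans ?_
          rw [← pow_mul, ← pow_mul, mul_comm d]
      _ = _ := by
        rw [Finset.prod_mul_distrib, Finset.prod_const, Finset.card_univ, Fintype.card_fin,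
          Finset.prod_pow_eq_pow_sum]
  have hcard2 : ({f : (𝓞 F)[X] | Ht g B f ∧ ¬ Big g B (δ₁ ^ (2 * g)) f}.ncard : ℝ) ≤
      ∑ t ∈ T, ((W t).card : ℝ) := by
    exact_mod_cast hcard
  refine hcard2.trans ((Finset.sum_le_sum fun t _ => hWc t).trans ?_)
  rw [Finset.sum_const, nsmul_eq_mul, ← hd]
  have hX0 : 0 ≤ (d : ℝ) * (2 * g) * (ε₁ * ((B : ℝ) ^ (2 * g + 1)) ^ d) := by positivity
  refine (mul_le_mul_of_nonneg_right hTc hX0).trans (le_of_eq ?_)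
  rw [← sum_dd g m hm, hε₁]
  have e5 : (B : ℝ) ^ (d * ((2 * g + 1) + ∑ j : Fin m, (2 * g + 1 - ((j : ℕ) + 1)))) =
      ((B : ℝ) ^ (2 * g + 1)) ^ d *
        ((B : ℝ) ^ d) ^ (∑ j : Fin m, (2 * g + 1 - ((j : ℕ) + 1))) := by
    rw [mul_add, pow_add, ← pow_mul, ← pow_mul, mul_comm (2 * g + 1) d]
  rw [e5]
  have hC0 : (2 * C₀) ^ m ≠ 0 := by positivity
  field_simp

end Pool.Agent.N195.CF
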